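import Mathlib

set_option autoImplicit false

namespace Pool.Agent.Helper358.CE

/-- On a compact space with a point separating family of continuous functions, every continuous
function depends on countably many of them. -/
theorem exists_countable_dep {Z κ : Type*} [TopologicalSpace Z] [CompactSpace Z]
    (G : κ → C(Z, ℝ)) (hsep : ∀ z z' : Z, z ≠ z' → ∃ j, G j z ≠ G j z') (F : C(Z, ℝ)) :
    ∃ J : Set κ, J.Countable ∧ ∀ z z' : Z, (∀ j ∈ J, G j z = G j z') → F z = F z' := by
  classical
  have key : ∀ n : ℕ, ∃ T : Finset κ, ∀ z z' : Z, (∀ j ∈ T, G j z = G j z') →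
      |F z - F z'| < 1 / ((n : ℝ) + 1) := by
    intro n
    have hpos : (0 : ℝ) < 1 / ((n : ℝ) + 1) := by positivity
    have hcl : IsClosed {p : Z × Z | 1 / ((n : ℝ) + 1) ≤ |F p.1 - F p.2|} := by
      apply isClosed_le continuous_const
      exact ((F.continuous.comp continuous_fst).sub (F.continuous.comp continuous_snd)).abs
    have hcp := hcl.isCompact
    obtain ⟨T, hT⟩ := hcp.elim_finite_subcover
      (fun j : κ => {p : Z × Z | G j p.1 ≠ G j p.2})
      (fun j => by
        apply isOpen_ne_fun
        · exact (G j).continuous.comp continuous_fst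
        · exact (G j).continuous.comp continuous_snd)
      (by
        intro p hp
        have hne : p.1 ≠ p.2 := by
          intro h
          simp only [Set.mem_ofPred_eq, h, sub_self, abs_zero] at hp
          linarith
        obtain ⟨j, hj⟩ := hsep _ _ hne
        exact Set.mem_iUnion.2 ⟨j, hj⟩)
    refine ⟨T, fun z z' h => ?_⟩
    by_contra hcon
    push Not at hcon
    have := hT (show (z, z') ∈ _ from hcon)
    simp only [Set.mem_iUnion, Set.mem_ofPred_eq, exists_prop] at this
    obtain ⟨j, hj, hj2⟩ := this
    exact hj2 (h j hj)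
  choose T hT using key
  refine ⟨⋃ n, (T n : Set κ), Set.countable_iUnion fun n => (T n).countable_toSet, ?_⟩
  intro z z' h
  by_contra hne
  have hpos : 0 < |F z - F z'| := abs_pos.2 (sub_ne_zero.2 hne)
  obtain ⟨n, hn⟩ := exists_nat_one_div_lt hpos
  have := hT n z z' (fun j hj => h j (Set.mem_iUnion.2 ⟨n, hj⟩))
  linarith

end Pool.Agent.Helper358.CE
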