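import Pool.Agent.Helper478.CE.Defs

set_option autoImplicit false

namespace Pool.Agent.Helper358.CE

open Pool.Agent.Helper478.CE
open scoped InnerProductSpace

theorem e_pos (n : ℕ) : 0 < e n := by unfold e; positivity

theorem K_eq : K = {f : I → ℝ | ∀ i, 0 ≤ f i ∧ f i ≤ 1} ∩
    ⋂ (n : ℕ) (s : List ℕ) (F : Finset I) (_ : ∀ i ∈ F, pre i.1 n = s),
      {f : I → ℝ | ∑ i ∈ F, max (f i - e n) 0 ≤ 1} := by
  ext f
  simp only [K, Set.mem_inter_iff, Set.mem_iInter, Set.mem_ofPred_eq]

theorem K_convex : Convex ℝ K := by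
  intro f hf g hg a b ha hb hab
  refine ⟨fun i => ?_, fun n s F hF => ?_⟩
  · have h1 := hf.1 i
    have h2 := hg.1 i
    simp only [Pi.add_apply, Pi.smul_apply, smul_eq_mul]
    constructor
    · have := mul_nonneg ha h1.1
      have := mul_nonneg hb h2.1
      linarith
    · have := mul_le_mul_of_nonneg_left h1.2 ha
      have := mul_le_mul_of_nonneg_left h2.2 hb
      linarith
  · have h1 := hf.2 n s F hF
    have h2 := hg.2 n s F hF
    have key : ∀ i ∈ F, max ((a • f + b • g) i - e n) 0 ≤
        a * max (f i - e n) 0 + b * max (g i - e n) 0 := by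
      intro i _
      simp only [Pi.add_apply, Pi.smul_apply, smul_eq_mul]
      apply max_le
      · have h3 := mul_le_mul_of_nonneg_left (le_max_left (f i - e n) 0) ha
        have h4 := mul_le_mul_of_nonneg_left (le_max_left (g i - e n) 0) hb
        have h5 : e n = a * e n + b * e n := by rw [← add_mul, hab, one_mul]
        nlinarith
      · have h3 := mul_nonneg ha (le_max_right (f i - e n) 0)
        have h4 := mul_nonneg hb (le_max_right (g i - e n) 0)
        linarith
    calc _ ≤ ∑ i ∈ F, (a * max (f i - e n) 0 + b * max (g i - e n) 0) := Finset.sum_le_sum key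
      _ = a * ∑ i ∈ F, max (f i - e n) 0 + b * ∑ i ∈ F, max (g i - e n) 0 := by
          rw [Finset.sum_add_distrib, Finset.mul_sum, Finset.mul_sum]
      _ ≤ a * 1 + b * 1 := by
          have := mul_le_mul_of_nonneg_left h1 ha
          have := mul_le_mul_of_nonneg_left h2 hb
          linarith
      _ = 1 := by linarith

theorem K_closed : IsClosed K := by
  rw [K_eq]
  apply IsClosed.inter
  · have : {f : I → ℝ | ∀ i, 0 ≤ f i ∧ f i ≤ 1} = ⋂ i, ({f : I → ℝ | 0 ≤ f i} ∩ {f | f i ≤ 1}) := by
      ext f; simp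
    rw [this]
    refine isClosed_iInter fun i => IsClosed.inter ?_ ?_
    · exact isClosed_le continuous_const (continuous_apply i)
    · exact isClosed_le (continuous_apply i) continuous_const
  · refine isClosed_iInter fun n => isClosed_iInter fun s => isClosed_iInter fun F =>
      isClosed_iInter fun _ => ?_
    apply isClosed_le _ continuous_const
    apply continuous_finsetSum
    intro i _
    exact ((continuous_apply i).sub continuous_const).max continuous_const

theorem K_compact : IsCompact K := by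
  have h : IsCompact (Set.pi Set.univ (fun _ : I => Set.Icc (0 : ℝ) 1)) :=
    isCompact_univ_pi fun _ => isCompact_Icc
  apply h.of_isClosed_subset K_closed
  intro f hf i _
  exact hf.1 i

/-- coefficients -/
noncomputable def u (s : List ℕ) : ℝ := (1 / 2) ^ (Encodable.encode s + 1)

theorem u_pos (s : List ℕ) : 0 < u s := by unfold u; positivity

theorem sum_u (S : Finset (List ℕ)) : ∑ s ∈ S, u s ^ 2 ≤ 1 := by
  classical
  have h1 : ∀ s ∈ S, u s ^ 2 ≤ (1 / 2 : ℝ) ^ (Encodable.encode s + 1) := by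
    intro s _
    have h0 : u s = (1 / 2 : ℝ) ^ (Encodable.encode s + 1) := rfl
    have h2 : (1 / 2 : ℝ) ^ (Encodable.encode s + 1) ≤ 1 :=
      pow_le_one₀ (by norm_num) (by norm_num)
    have h3 : (0 : ℝ) < (1 / 2 : ℝ) ^ (Encodable.encode s + 1) := by positivity
    rw [h0]
    nlinarith
  have h2 : ∑ s ∈ S, (1 / 2 : ℝ) ^ (Encodable.encode s + 1) =
      ∑ n ∈ S.image Encodable.encode, (1 / 2 : ℝ) ^ (n + 1) := by
    rw [Finset.sum_image]
    intro a _ b _ h
    exact Encodable.encode_injective h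
  have hs : HasSum (fun n : ℕ => (1 / 2 : ℝ) ^ (n + 1)) 1 := by
    have := hasSum_geometric_two'  (1 : ℝ)
    convert this using 1
    ext n
    rw [pow_succ, one_div_pow]
    field_simp
  calc _ ≤ ∑ s ∈ S, (1 / 2 : ℝ) ^ (Encodable.encode s + 1) := Finset.sum_le_sum h1
    _ = _ := h2
    _ ≤ 1 := sum_le_hasSum _ (fun n _ => by positivity) hs

/-- the coordinate functions of the embedding -/
noncomputable def ps (f : I → ℝ) (v : I × ℕ) : ℝ := u (pre v.1.1 v.2) * max (f v.1 - e v.2) 0

theorem sum_ps (f : I → ℝ) (hf : f ∈ K) (U : Finset (I × ℕ)) : ∑ v ∈ U, ps f v ^ 2 ≤ 1 := by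
  classical
  have h1 : ∑ v ∈ U, ps f v ^ 2 =
      ∑ s ∈ U.image (fun v => pre v.1.1 v.2), ∑ v ∈ U.filter (fun v => pre v.1.1 v.2 = s),
        ps f v ^ 2 := by
    rw [Finset.sum_fiberwise_of_maps_to]
    intro v hv
    exact Finset.mem_image_of_mem _ hv
  rw [h1]
  refine le_trans (Finset.sum_le_sum (g := fun s => u s ^ 2) ?_) (sum_u _)
  intro s _
  have hlen : ∀ v ∈ U.filter (fun v => pre v.1.1 v.2 = s), v.2 = s.length := by
    intro v hv
    have := (Finset.mem_filter.1 hv).2
    rw [← this]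
    simp [pre]
  have h2 : ∀ v ∈ U.filter (fun v => pre v.1.1 v.2 = s), ps f v ^ 2 ≤
      u s ^ 2 * max (f v.1 - e s.length) 0 := by
    intro v hv
    have h3 := (Finset.mem_filter.1 hv).2
    have h4 := hlen v hv
    unfold ps
    rw [h3, h4, mul_pow]
    apply mul_le_mul_of_nonneg_left _ (by positivity)
    have h5 : max (f v.1 - e s.length) 0 ≤ 1 := by
      apply max_le _ zero_le_one
      have := (hf.1 v.1).2
      have := e_pos s.length
      linarith
    have h6 : 0 ≤ max (f v.1 - e s.length) 0 := le_max_right _ _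
    nlinarith
  refine le_trans (Finset.sum_le_sum h2) ?_
  rw [← Finset.mul_sum]
  have h7 : ∑ v ∈ U.filter (fun v => pre v.1.1 v.2 = s), max (f v.1 - e s.length) 0 =
      ∑ i ∈ (U.filter (fun v => pre v.1.1 v.2 = s)).image Prod.fst,
        max (f i - e s.length) 0 := by
    rw [Finset.sum_image]
    intro v hv w hw hvw
    have h8 := hlen v hv
    have h9 := hlen w hw
    exact Prod.ext hvw (h8.trans h9.symm)
  rw [h7]
  have h10 := hf.2 s.length s ((U.filter (fun v => pre v.1.1 v.2 = s)).image Prod.fst) (by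
    intro i hi
    obtain ⟨v, hv, rfl⟩ := Finset.mem_image.1 hi
    have h3 := (Finset.mem_filter.1 hv).2
    have h4 := hlen v hv
    rw [← h4, h3])
  have := mul_le_mul_of_nonneg_left h10 (sq_nonneg (u s))
  linarith

theorem ps_inj (f g : I → ℝ) (hf : f ∈ K) (hg : g ∈ K) (h : ∀ v, ps f v = ps g v) : f = g := by
  ext i
  have h1 : ∀ k : ℕ, max (f i - e k) 0 = max (g i - e k) 0 := by
    intro k
    have := h (i, k)
    unfold ps at this
    exact mul_left_cancel₀ (u_pos _).ne' this
  have h2 : ∀ k : ℕ, |f i - g i| ≤ 2 * e k := by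
    intro k
    have h3 := h1 k
    have h4 : |max (f i - e k) 0 - f i| ≤ e k := by
      have := (hf.1 i).1
      have := e_pos k
      rw [abs_le]
      rcases le_total (f i - e k) 0 with h5 | h5
      · rw [max_eq_right h5]; constructor <;> linarith
      · rw [max_eq_left h5]; constructor <;> linarith
    have h5 : |max (g i - e k) 0 - g i| ≤ e k := by
      have := (hg.1 i).1
      have := e_pos k
      rw [abs_le]
      rcases le_total (g i - e k) 0 with h5 | h5
      · rw [max_eq_right h5]; constructor <;> linarith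
      · rw [max_eq_left h5]; constructor <;> linarith
    rw [abs_le] at *
    constructor <;> linarith [h4.1, h4.2, h5.1, h5.2]
  have h3 : Filter.Tendsto (fun k => 2 * e k) Filter.atTop (nhds (2 * 0)) := by
    apply Filter.Tendsto.const_mul
    unfold e
    exact tendsto_pow_atTop_nhds_zero_of_lt_one (by norm_num) (by norm_num)
  have h4 : |f i - g i| ≤ 2 * 0 := ge_of_tendsto' h3 h2
  have h5 : |f i - g i| = 0 := le_antisymm (by linarith) (abs_nonneg _)
  exact sub_eq_zero.1 (abs_eq_zero.1 h5)

theorem ps_cont (v : I × ℕ) : Continuous fun f : I → ℝ => ps f v := by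
  unfold ps
  exact continuous_const.mul (((continuous_apply v.1).sub continuous_const).max continuous_const)

theorem weak_cont (ι Z : Type) [TopologicalSpace Z] (Φ : Z → lp (fun _ : ι => ℝ) 2) (C : ℝ)
    (hb : ∀ z, ‖Φ z‖ ≤ C) (hc : ∀ i, Continuous fun z => (Φ z : ∀ _ : ι, ℝ) i) :
    ∀ s : StrongDual ℝ (lp (fun _ : ι => ℝ) 2), Continuous fun z => s (Φ z) := by
  classical
  intro s
  obtain ⟨g, rfl⟩ := (InnerProductSpace.toDual ℝ (lp (fun _ : ι => ℝ) 2)).surjective s
  have hs : HasSum (fun i : ι => lp.single 2 i (g i)) g := lp.hasSum_single ENNReal.ofNat_ne_top g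
  have hu : TendstoUniformly (fun (T : Finset ι) (z : Z) =>
      ⟪∑ i ∈ T, (lp.single 2 i (g i) : lp (fun _ : ι => ℝ) 2), Φ z⟫_ℝ) (fun z => ⟪g, Φ z⟫_ℝ)
      Filter.atTop := by
    rw [Metric.tendstoUniformly_iff]
    intro ε hε
    have h1 : 0 < ε / (|C| + 1) := by positivity
    have h2 := (Metric.tendsto_nhds.1 hs) _ h1
    filter_upwards [h2] with T hT z
    rw [dist_eq_norm] at hT
    rw [dist_comm, dist_eq_norm, ← inner_sub_left]
    have h3 : ‖Φ z‖ ≤ |C| := (hb z).trans (le_abs_self C)
    calc _ ≤ ‖∑ i ∈ T, (lp.single 2 i (g i) : lp (fun _ : ι => ℝ) 2) - g‖ * ‖Φ z‖ :=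
          norm_inner_le_norm _ _
      _ ≤ ‖∑ i ∈ T, (lp.single 2 i (g i) : lp (fun _ : ι => ℝ) 2) - g‖ * (|C| + 1) := by
          apply mul_le_mul_of_nonneg_left _ (norm_nonneg _)
          linarith
      _ < ε / (|C| + 1) * (|C| + 1) := by
          apply mul_lt_mul_of_pos_right hT (by positivity)
      _ = ε := by field_simp
  have hcont : ∀ T : Finset ι, Continuous fun z =>
      ⟪∑ i ∈ T, (lp.single 2 i (g i) : lp (fun _ : ι => ℝ) 2), Φ z⟫_ℝ := by
    intro T
    simp only [sum_inner]
    apply continuous_finsetSum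
    intro i _
    simp only [lp.inner_single_left]
    exact continuous_const.inner (hc i)
  have := hu.continuous (Filter.Frequently.of_forall hcont)
  exact this
 
theorem weak_homeo (X : Type) [NormedAddCommGroup X] [NormedSpace ℝ X] (Z : Type)
    [TopologicalSpace Z] [CompactSpace Z] (f : Z → X) (hf : Function.Injective f)
    (hc : ∀ s : StrongDual ℝ X, Continuous fun z => s (f z)) :
    ∃ S : Set (WeakSpace ℝ X), IsCompact S ∧ Nonempty (Z ≃ₜ S) := by
  have hcont : Continuous fun z => toWeakSpace ℝ X (f z) :=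
    WeakBilin.continuous_of_continuous_eval _ hc
  refine ⟨Set.range fun z => toWeakSpace ℝ X (f z), isCompact_range hcont, ?_⟩
  have hinj : Function.Injective fun z => toWeakSpace ℝ X (f z) := fun a b h =>
    hf ((toWeakSpace ℝ X).injective h)
  exact ⟨(hcont.isClosedEmbedding hinj).isEmbedding.toHomeomorph⟩

theorem K_eberlein : ∃ (X : Type) (_ : NormedAddCommGroup X) (_ : NormedSpace ℝ X)
    (_ : CompleteSpace X) (S : Set (WeakSpace ℝ X)), IsCompact S ∧ Nonempty (K ≃ₜ S) := by
  classical
  have hmem : ∀ f : K, Memℓp (ps f.1) 2 := by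
    intro f
    apply memℓp_gen' (C := 1)
    intro U
    have := sum_ps f.1 f.2 U
    refine le_trans (le_of_eq ?_) this
    apply Finset.sum_congr rfl
    intro v _
    simp
  let Φ : K → lp (fun _ : I × ℕ => ℝ) 2 := fun f => ⟨ps f.1, hmem f⟩
  have hΦ : ∀ (f : K) (v : I × ℕ), (Φ f : ∀ _ : I × ℕ, ℝ) v = ps f.1 v := fun f v => rfl
  have hb : ∀ f, ‖Φ f‖ ≤ 1 := by
    intro f
    apply lp.norm_le_of_forall_sum_le (by norm_num) zero_le_one
    intro U
    have := sum_ps f.1 f.2 U
    refine le_trans (le_of_eq ?_) (this.trans (by norm_num))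
    apply Finset.sum_congr rfl
    intro v _
    rw [hΦ]
    simp
  have hcs : CompactSpace K := isCompact_iff_compactSpace.1 K_compact
  obtain ⟨S, hS, hS2⟩ := weak_homeo (lp (fun _ : I × ℕ => ℝ) 2) K Φ (by
    intro f g hfg
    apply Subtype.ext
    apply ps_inj f.1 g.1 f.2 g.2
    intro v
    rw [← hΦ, ← hΦ, hfg]) (weak_cont _ _ Φ 1 hb (by
    intro v
    simp only [hΦ]
    exact (ps_cont v).comp continuous_subtype_val))
  exact ⟨lp (fun _ : I × ℕ => ℝ) 2, inferInstance, inferInstance, inferInstance, S, hS, hS2⟩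

end Pool.Agent.Helper358.CE
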